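import Mathlib
import Pool.Agent.Lib.MP_b653e9_lc.Main
import Pool.Agent.Lib.MP_b653e9_lc.Univ

/-!
MP_b653e9_lc, Q1, answered in the negated form for computable orders `h`.
(`Pool.Agent.MP_b653e9_lc.exists_universalMachine` shows that universal machines exist.)
-/

namespace Pool.Agent.Results.MP_b653e9_lc.Q1Orders

open Pool.Agent.MP_b653e9_lc

theorem result (U : List Bool →. List Bool) (hU : UniversalMachine U) (h : ℕ → ℕ)
    (hc : Computable h) (hm : Monotone h) (hunb : ∀ k, ∃ n, k ≤ h n) :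
    ∃ X : ℕ → Bool, (∀ n : ℕ, (n : ℤ) - h n < K U (pre X n)) ∧
      ∀ Y, ComputesReal X Y → ¬ MLRandom Y := by
  obtain ⟨X, h1, h2⟩ := order_negative hU hc hm hunb
  refine ⟨X, fun n => ?_, fun Y hY => not_MLRandom hU (h2 Y hY)⟩
  have := h1 n
  omega

end Pool.Agent.Results.MP_b653e9_lc.Q1Orders
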