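import Mathlib
import Pool.Agent.Lib.MP_b653e9_lc.Deep

/-!
MP_b653e9_lc, Q1: a computable `h` tending to infinity (not monotone), and a monotone `h` tending
to infinity (not computable), for which deficiency at most `h` forces computing a random real.
(`Pool.Agent.MP_b653e9_lc.exists_universalMachine` shows that universal machines exist.)
-/

namespace Pool.Agent.Results.MP_b653e9_lc.Q1Tendsto

open Pool.Agent.MP_b653e9_lc Filter

theorem result :
    (∃ h : ℕ → ℕ, Computable h ∧ Tendsto h atTop atTop ∧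
      ∀ U, UniversalMachine U → ∀ X : ℕ → Bool, (∀ n : ℕ, (n : ℤ) - h n < K U (pre X n)) →
        ∃ Y, MLRandom Y ∧ ComputesReal X Y) ∧
    (∃ h : ℕ → ℕ, Monotone h ∧ Tendsto h atTop atTop ∧
      ∀ U, UniversalMachine U → ∀ X : ℕ → Bool, (∀ n : ℕ, (n : ℤ) - h n < K U (pre X n)) →
        ∃ Y, MLRandom Y ∧ ComputesReal X Y) := by
  refine ⟨⟨hfun, computable_hfun, hfun_tendsto, fun U hU X hX => deep_result hU fun n => ?_⟩,
    ⟨fun n => sInf (hfun '' Set.Ici n), ?_, ?_, fun U hU X hX => deep_result hU fun n => ?_⟩⟩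
  · have := hX n
    omega
  · intro a b hab
    have hne : (hfun '' Set.Ici b).Nonempty := ⟨hfun b, b, Set.mem_Ici.2 le_rfl, rfl⟩
    obtain ⟨m, hm, hm'⟩ := Nat.sInf_mem hne
    refine Nat.sInf_le ⟨m, ?_, hm'⟩
    exact Set.mem_Ici.2 (hab.trans (Set.mem_Ici.1 hm))
  · rw [tendsto_atTop]
    intro E
    obtain ⟨M, hM⟩ := eventually_atTop.1 (tendsto_atTop.1 hfun_tendsto E)
    rw [eventually_atTop]
    refine ⟨M, fun n hn => ?_⟩
    have hne : (hfun '' Set.Ici n).Nonempty := ⟨hfun n, n, Set.mem_Ici.2 le_rfl, rfl⟩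
    obtain ⟨m, hm, hm'⟩ := Nat.sInf_mem hne
    rw [← hm']
    exact hM m (hn.trans (Set.mem_Ici.1 hm))
  · have h1 : (n : ℤ) - (sInf (hfun '' Set.Ici n) : ℕ) < K U (pre X n) := hX n
    have h2 : sInf (hfun '' Set.Ici n) ≤ hfun n := Nat.sInf_le ⟨n, Set.mem_Ici.2 le_rfl, rfl⟩
    omega

end Pool.Agent.Results.MP_b653e9_lc.Q1Tendsto
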